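import Pool.Agent.Helper90.HR1.Main
import Pool.Agent.Helper10.BLD.St

/-! (R1) for the rounded top forms gives (R1) in the form of the builder. -/

set_option autoImplicit false

namespace Pool.Agent.Helper90.HR1

open Finset Filter Topology MvPolynomial Pool.Agent.Helper69.RK Pool.Agent.Helper31.EC Pool.Agent.Helper31.EC.Sp
open Pool.Agent.Helper40.EL Pool.Agent.Helper89.LX Pool.Agent.Helper3.LF Pool.Agent.Helper84.MT
open Pool.Agent.Helper36.AM Pool.Agent.Helper49.MD Pool.Agent.Helper26.OUT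

noncomputable section

variable {S : Sp} {M g r : ℕ} {w : Fin (M + 1) → ℝ}

/-- a top coefficient is an entry of the variable of the top forms -/
theorem isTop_ix {s : MSys S (M + 1) (lin g) (Fin r)} (hs : WDs w s) {i : Fin r} {f : TR S}
    (hf : Pool.Agent.Helper10.BLD.IsTop w s i f) :
    ∃ n : Fin (Fintype.card (Tix (fun i => (s.lf i).e) (M + 1) (wb w))), ∀ᶠ k in UF, ∀ ω, (S.F k).μ ω ≠ 0 →
      TR.ev f k ω = (tpV hs).v k ω n := by
  obtain ⟨j, a, G, h1, h2, h3, h4⟩ := hf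
  have hdeg : (a.degree : ℕ) = ∑ i, a i := by
    rw [Finsupp.degree_eq_sum]
  have ha : ∀ i, a i < wb w + 1 := by
    intro i
    have h5 : a i ≤ ∑ i, a i := Finset.single_le_sum (f := fun i => a i) (fun _ _ => Nat.zero_le _) (Finset.mem_univ i)
    have h6 : ((∑ i, a i : ℕ) : ℝ) ≤ wb w := by
      rw [← hdeg, h1]
      exact le_wb w j
    have h7 : (∑ i, a i : ℕ) ≤ wb w := by exact_mod_cast h6
    omega
  refine ⟨Fintype.equivFin _ ⟨i, (j, fun x => ⟨a x, ha x⟩)⟩, ?_⟩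
  filter_upwards [h3, h4] with k a1 a2 ω hω
  rw [tpV_v hs k ω ⟨i, (j, fun x => ⟨a x, ha x⟩)⟩, a2 ω hω]
  unfold tpc
  have e1 : ∑ x, (((⟨a x, ha x⟩ : Fin (wb w + 1)) : ℕ) : ℝ) = w j := by
    rw [← h1, hdeg]
    push_cast
    rfl
  have e2 : exf (W := wb w) (fun x => (⟨a x, ha x⟩ : Fin (wb w + 1))) = a := by
    apply Finsupp.ext
    intro x
    rw [exf_apply]
  simp only
  rw [if_pos e1, plf_eq (fun y => a1 ω hω y), e2]

/-- ADAPTER: (R1) of the builder -/
theorem R1.top {s : MSys S (M + 1) (lin g) (Fin r)} (hs : WDs w s) (h1 : R1 w s) : Pool.Agent.Helper10.BLD.R1 w s := by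
  intro n f ty hf
  rw [R1_iff hs] at h1
  apply le_antisymm _ (I_nonneg _ _ _)
  rw [← h1]
  apply Pool.Agent.Helper31.EC.I_mono_left
  refine le_trans ?_ le_sup_left
  choose m hm using fun a => isTop_ix hs (hf a)
  apply VV.dg_le_dg _ _ _ _ (fun _ _ => True) Typ_true (fun _ => 1) (S.Sub_const zero_le_one)
  filter_upwards [eventually_all.mpr hm] with k hk ω ω' a b _ _ _ q i
  have e1 : (TR.vec f).v k ω i = TR.ev (f i) k ω := rfl
  have e2 : (TR.vec f).v k ω' i = TR.ev (f i) k ω' := rfl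
  rw [e1, e2, hk i ω a, hk i ω' b, one_mul]
  exact q (m i)

/-- row R1 in the form of the builder -/
theorem st_r1 (M : ℕ) : Pool.Agent.Helper10.BLD.ST_R1 M := by
  intro Cl g r w ρ TT hT
  obtain ⟨TT1, h1, h2⟩ := hr1 hT
  exact ⟨TT1, h1, fun S s hs => (h2 S s hs).1, fun S s hs => (h2 S s hs).2.top (h1.wd S s hs)⟩

end

end Pool.Agent.Helper90.HR1
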