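import Pool.Agent.Helper90.HR1.Main
import Pool.Agent.Helper37.DK2.Def

/-! (R1) for the top forms gives (R1) for the tangents in the coordinates of weight one. -/

set_option autoImplicit false

namespace Pool.Agent.Helper90.HR1

open Finset Filter Topology MvPolynomial Pool.Agent.Helper69.RK Pool.Agent.Helper31.EC Pool.Agent.Helper31.EC.Sp
open Pool.Agent.Helper40.EL Pool.Agent.Helper89.LX Pool.Agent.Helper3.LF Pool.Agent.Helper84.MT
open Pool.Agent.Helper36.AM Pool.Agent.Helper49.MD Pool.Agent.Helper26.OUT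
open Pool.Agent.Helper37.DK2 (ftan mtan tcell r1A J1 cQ1)

noncomputable section

/-! ### affine polynomials -/

section aff

variable {e : ℕ}

theorem sum_single (b : Fin e) : ∑ i, (Finsupp.single b 1 : Fin e →₀ ℕ) i = 1 := by
  classical
  rw [Finset.sum_eq_single b]
  · exact Finsupp.single_eq_same
  · intro i _ hi
    exact Finsupp.single_eq_of_ne hi
  · intro hb
    exact absurd (Finset.mem_univ b) hb

theorem exists_single {m : Fin e →₀ ℕ} (hm : ∑ i, m i = 1) : ∃ b, m = Finsupp.single b 1 := by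
  classical
  have h1 : ∃ b, m b ≠ 0 := by
    by_contra hn
    push Not at hn
    rw [Finset.sum_eq_zero fun i _ => hn i] at hm
    omega
  obtain ⟨b, hb⟩ := h1
  refine ⟨b, Finsupp.ext fun i => ?_⟩
  have h2 : m b + ∑ i ∈ Finset.univ.erase b, m i = 1 := by
    rw [Finset.add_sum_erase _ _ (Finset.mem_univ b)]
    exact hm
  by_cases hi : i = b
  · rw [hi, Finsupp.single_eq_same]
    omega
  · rw [Finsupp.single_eq_of_ne hi]
    have h3 : m i ≤ ∑ i ∈ Finset.univ.erase b, m i :=
      Finset.single_le_sum (f := fun i => m i) (fun _ _ => Nat.zero_le _)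
        (Finset.mem_erase.mpr ⟨hi, Finset.mem_univ i⟩)
    omega

theorem aff_eq (G : MvPolynomial (Fin e) ℝ) (hG : G.totalDegree ≤ 1) :
    G = C (coeff 0 G) + ∑ b, C (coeff (Finsupp.single b 1) G) * X b := by
  classical
  apply MvPolynomial.ext
  intro m
  rw [coeff_add, coeff_C, coeff_sum]
  have h1 : ∀ b : Fin e, coeff m (C (coeff (Finsupp.single b 1) G) * X b) =
      coeff (Finsupp.single b 1) G * (if Finsupp.single b 1 = m then 1 else 0) := by
    intro b
    rw [coeff_C_mul, coeff_X']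
  rw [Finset.sum_congr rfl fun b _ => h1 b]
  rcases Nat.lt_trichotomy (∑ i, m i) 1 with h2 | h2 | h2
  · have h3 : m = 0 := by
      apply Finsupp.ext
      intro i
      have h4 : m i ≤ ∑ i, m i := Finset.single_le_sum (f := fun i => m i) (fun _ _ => Nat.zero_le _)
        (Finset.mem_univ i)
      rw [Finsupp.zero_apply]
      omega
    rw [h3, if_pos rfl, Finset.sum_eq_zero, add_zero]
    intro b _
    rw [if_neg, mul_zero]
    intro h5
    have h6 := sum_single b
    rw [h5] at h6
    simp at h6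
  · obtain ⟨b, rfl⟩ := exists_single h2
    rw [if_neg, zero_add, Finset.sum_eq_single b]
    · rw [if_pos rfl, mul_one]
    · intro b' _ hb
      rw [if_neg, mul_zero]
      intro h5
      exact hb (Finsupp.single_left_injective one_ne_zero h5)
    · intro hb
      exact absurd (Finset.mem_univ b) hb
    · intro h5
      rw [← h5] at h2
      simp at h2
  · rw [coeff_zero_of hG h2, if_neg, zero_add, Finset.sum_eq_zero]
    · intro b _
      rw [if_neg, mul_zero]
      intro h5
      rw [← h5, sum_single] at h2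
      omega
    · intro h5
      rw [← h5] at h2
      simp at h2

theorem deriv_aff (G : MvPolynomial (Fin e) ℝ) (hG : G.totalDegree ≤ 1) (Y : Fin e → ℝ) (a : Fin e) :
    deriv (fun t => eval (Function.update Y a t) G) (Y a) = coeff (Finsupp.single a 1) G := by
  classical
  have h1 : (fun t => eval (Function.update Y a t) G) = fun t => (coeff 0 G + ∑ b ∈ Finset.univ.erase a,
      coeff (Finsupp.single b 1) G * Y b) + coeff (Finsupp.single a 1) G * t := by
    funext t
    have h2 := congrArg (eval (Function.update Y a t)) (aff_eq G hG)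
    rw [h2, map_add, eval_C, map_sum, ← Finset.add_sum_erase _ _ (Finset.mem_univ a), map_mul, eval_C, eval_X,
      Function.update_self]
    have h3 : ∑ b ∈ Finset.univ.erase a, eval (Function.update Y a t) (C (coeff (Finsupp.single b 1) G) * X b) =
        ∑ b ∈ Finset.univ.erase a, coeff (Finsupp.single b 1) G * Y b := by
      refine Finset.sum_congr rfl fun b hb => ?_
      rw [map_mul, eval_C, eval_X, Function.update_of_ne (Finset.ne_of_mem_erase hb)]
    rw [h3]
    ring
  rw [h1]
  have h2 := ((hasDerivAt_id (Y a)).const_mul (coeff (Finsupp.single a 1) G)).const_add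
    (coeff 0 G + ∑ b ∈ Finset.univ.erase a, coeff (Finsupp.single b 1) G * Y b)
  rw [mul_one] at h2
  exact h2.deriv

end aff

/-! ### the adapter -/

variable {S : Sp} {M : ℕ} {E : ℕ → ℕ} {ι : Type} [Fintype ι] {w : Fin M → ℝ}


theorem one_le_wb {j : Fin M} (hj : w j = 1) : 1 ≤ wb w := by
  have h1 := le_wb w j
  rw [hj] at h1
  exact_mod_cast h1

/-- the tangents of a leaf in the coordinates of weight one are top forms -/
theorem ftan_eq {Ω : Type} (x : FLf Ω M) (ω : Ω) (G : Fin M → MvPolynomial (Fin x.e) ℝ)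
    (hF : ∀ y j, x.F ω y j = eval y (G j)) (hG : ∀ j, ((G j).totalDegree : ℝ) ≤ w j) {j : Fin M} (hj : w j = 1)
    (a : Fin x.e) : ∃ p : Fin M × (Fin x.e → Fin (wb w + 1)), p = (j, fun b => if b = a then ⟨1, by
      have := one_le_wb (w := w) hj
      omega⟩ else 0) ∧ ftan x ω a j = tpc w (wb w) (x.F ω) p := by
  classical
  refine ⟨_, rfl, ?_⟩
  have hG1 : (G j).totalDegree ≤ 1 := by
    have := hG j
    rw [hj] at this
    exact_mod_cast this
  unfold ftan tpc
  have h1 : (fun t => x.F ω (Function.update (x.Y ω) a t) j) = fun t => eval (Function.update (x.Y ω) a t) (G j) := by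
    funext t
    exact hF _ _
  rw [h1, deriv_aff _ hG1]
  simp only
  have h2 : exf (W := wb w) (fun b => if b = a then (⟨1, by
      have := one_le_wb (w := w) hj
      omega⟩ : Fin (wb w + 1)) else 0) = Finsupp.single a 1 := by
    apply Finsupp.ext
    intro b
    rw [exf_apply]
    by_cases hb : b = a
    · rw [if_pos hb, hb, Finsupp.single_eq_same]
    · rw [if_neg hb, Finsupp.single_eq_of_ne hb]
      rfl
  have h3 : ∑ b, (((if b = a then (⟨1, by
      have := one_le_wb (w := w) hj
      omega⟩ : Fin (wb w + 1)) else 0 : Fin (wb w + 1)) : ℕ) : ℝ) = w j := by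
    rw [hj, Finset.sum_eq_single a]
    · rw [if_pos rfl]
      exact Nat.cast_one
    · intro b _ hb
      rw [if_neg hb]
      exact Nat.cast_zero
    · intro hb
      exact absurd (Finset.mem_univ a) hb
  rw [if_pos h3, plf_eq (fun y => hF y j), h2]

/-- ADAPTER: (R1) for the tangents in the coordinates of weight one -/
theorem R1.tan {s : MSys S M E ι} (hs : WDs w s) (h1 : R1 w s) : Pool.Agent.Helper37.DK2.R1 (J1 w) s := by
  classical
  intro δ hδ
  choose G hF hG using hs
  filter_upwards [h1 δ hδ, eventually_all.mpr hF] with k a1 a2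
  have h2 : I (fc (ttop w (S.F k) (ob s k))) (fc (qtop (S.F k) (ob s k))) (⊥ : FL (S.F k)) / (S.F k).n ≤ δ := a1
  rw [div_le_iff₀ (S.F k).pos] at h2
  show I (fc (tcell (S.F k) (ob s k) (J1 w)) : FL (S.F k)) (fc (cQ1 (S.F k) (ob s k))) ⊥ ≤ δ * (S.F k).n
  have e1 : cQ1 (S.F k) (ob s k) = qtop (S.F k) (ob s k) := rfl
  rw [e1]
  refine le_trans (Pool.Agent.Helper31.EC.I_mono_left (le_trans ?_ le_sup_left)) h2
  apply fc_le
  intro ω ω' hω hω' _ hB
  have h3 : (fun (i : ι) (p : Fin M × (Fin (s.lf i).e → Fin (wb w + 1))) =>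
    ⌊tpc w (wb w) ((s.lf i).F k ω) p / dlF (S.F k) 1⌋) = fun (i : ι) p =>
    ⌊tpc w (wb w) ((s.lf i).F k ω') p / dlF (S.F k) 1⌋ := hB
  show (fun (a : Σ i, Fin (s.lf i).e) (j : J1 w) => ⌊mtan (ob s k : FMs (S.F k).Ω M ι) ω a j / dlF (S.F k) 1⌋) =
    fun (a : Σ i, Fin (s.lf i).e) (j : J1 w) => ⌊mtan (ob s k : FMs (S.F k).Ω M ι) ω' a j / dlF (S.F k) 1⌋
  funext a j
  have hj : w j.1 = 1 := by
    have := j.2
    unfold J1 at this
    exact (Finset.mem_filter.mp this).2
  obtain ⟨i, a⟩ := a
  obtain ⟨p, rfl, hp⟩ := ftan_eq (w := w) (lob (s.lf i) k) ω (G i k ω) (fun y j => a2 i ω hω y j) (hG i k ω) hj a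
  obtain ⟨p', hp1, hp'⟩ := ftan_eq (w := w) (lob (s.lf i) k) ω' (G i k ω') (fun y j => a2 i ω' hω' y j) (hG i k ω') hj a
  show ⌊ftan (lob (s.lf i) k) ω a j.1 / dlF (S.F k) 1⌋ = ⌊ftan (lob (s.lf i) k) ω' a j.1 / dlF (S.F k) 1⌋
  rw [hp, hp', hp1]
  exact congrFun (congrFun h3 i) _

/-- row R1 in the form of the tangents -/
theorem hr1_tan (M : ℕ) : Pool.Agent.Helper37.DK2.HR1 M := by
  intro Cl g r w ρ TT hT
  obtain ⟨TT1, h1, h2⟩ := hr1 hT
  exact ⟨TT1, h1, fun S s hs => (h2 S s hs).1, fun S s hs => (h2 S s hs).2.tan (h1.wd S s hs)⟩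

end

end Pool.Agent.Helper90.HR1
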