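import Pool.Agent.Helper36.AM.Dlow
import Pool.Agent.Helper26.MT.Ze

/-! Facts on frames and zooms of systems of leaves: the coordinates of a frame are known to the digits of the point over
the label; conditions of the zoom; labels of the zoom are labels of the system. -/

set_option autoImplicit false

namespace Pool.Agent.Helper90.HR1

open Finset Filter Topology MvPolynomial Pool.Agent.Helper69.RK Pool.Agent.Helper31.EC Pool.Agent.Helper31.EC.Sp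
open Pool.Agent.Helper40.EL Pool.Agent.Helper89.LX Pool.Agent.Helper3.LF Pool.Agent.Helper84.MT
open Pool.Agent.Helper36.AM Pool.Agent.Helper81.MI

noncomputable section

variable {S : Sp} {M : ℕ} {E E' : ℕ → ℕ} {ι : Type}

/-- the coordinates of two points with the same digits are close -/
theorem frm_close {Q : S.VV M} {l : Lab S} {La : Fin M → ℝ} (f : Frm Q l La) {κ : ℕ}
    (hκ : ∀ k ω j, (f.P k ω j).totalDegree ≤ κ) (h0 : ∀ i, 0 ≤ La i) {e : ℝ} (h1 : ∀ i, La i + e ≤ 1) :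
    ∃ K : ℕ → ℝ, S.Sub K ∧ ∀ᶠ k in UF, ∀ ω ω' : (l.sp.F k).Ω, (l.sp.F k).μ ω ≠ 0 → (l.sp.F k).μ ω' ≠ 0 →
      (l.sp.F k).Z ω ω' → l.V k ω ω' → (∀ i, |(l.pj.vv Q).v k ω i - (l.pj.vv Q).v k ω' i| ≤ S.dl 1 k) →
        ∀ j, |f.X.v k ω j - f.X.v k ω' j| ≤ K k * S.dl e k := by
  obtain ⟨Kc, hKc, hc⟩ := f.bd
  obtain ⟨Kp, hKp, hp⟩ := f.pt
  obtain ⟨Kx, hKx', hx⟩ := f.X.bd
  have hKx : S.Sub Kx := (sp_Sub l).mp hKx'
  obtain ⟨L, hL⟩ : ∃ L : ℕ → ℝ, L = fun k => ((κ : ℝ) + 1) ^ M * Kc k * (κ * (Kx k + 1) ^ κ) := ⟨_, rfl⟩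
  have hLS : S.Sub L := by rw [hL]; exact Sub_L hKc hKx M κ
  have hE : S.Sub (fun k => (1 + L k) ^ M * (Kp k + 1)) :=
    (Sub_pow' ((S.Sub_const zero_le_one).add hLS) M).mul (hKp.add (S.Sub_const zero_le_one))
  refine ⟨fun k => 2 * ((1 + L k) ^ M * (Kp k + 1)), (S.Sub_const (by norm_num)).mul hE, ?_⟩
  filter_upwards [hc, hp, hx, hKc.1, hKp.1, hKx.1, hE.eventually_le one_pos, f.fn] with k c1 c2 c3 c4 c5 c6 c7 c8
    ω ω' hω hω' hZ hV hQ j
  have hL0 : 0 ≤ L k := by rw [hL]; positivity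
  have hn := (S.F k).pos
  have hδ := S.dl_pos 1 k
  have hd1 : S.dl 1 k * 2 ^ (1 * (S.F k).n) = 1 := by
    unfold Sp.dl
    rw [← Real.rpow_add (by norm_num)]
    norm_num
  have hdi : ∀ i, S.dl (La i) k ≤ 1 := fun i => by
    rw [← S.dl_zero k]
    exact S.dl_anti (h0 i) k
  have hs : (1 + L k) ^ M * ((Kp k + 1) * S.dl 1 k) ≤ 1 := by
    rw [← mul_assoc]
    have h2 : (1 + L k) ^ M * (Kp k + 1) * S.dl 1 k ≤ 2 ^ (1 * (S.F k).n) * S.dl 1 k :=
      mul_le_mul_of_nonneg_right (by linarith) hδ.le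
    rw [mul_comm] at hd1
    linarith
  have hUB : ∀ ω : (l.sp.F k).Ω, (l.sp.F k).μ ω ≠ 0 → ∀ i, |S.dl (La i) k * f.X.v k ω i| ≤ Kx k := by
    intro ω hω i
    rw [abs_mul, abs_of_pos (S.dl_pos _ _)]
    have h2 := c3 ω hω i
    calc S.dl (La i) k * |f.X.v k ω i| ≤ 1 * Kx k := mul_le_mul (hdi i) h2 (abs_nonneg _) zero_le_one
      _ = Kx k := one_mul _
  have hP : f.P k ω = f.P k ω' := c8 ω ω' hω hω' hZ hV
  -- both points in the chart
  have v1 := inv_val (f.tri k ω') (fun j => hκ k ω' j) c4 (fun j a => c1 ω' hω' j a) c6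
    (show 0 ≤ (Kp k + 1) * S.dl 1 k by positivity) (by rw [hL]) hs (fun i => S.dl (La i) k * f.X.v k ω' i)
    ((l.pj.vv Q).v k ω') (hUB ω' hω') (fun i => (c2 ω' hω' i).trans (by nlinarith)) j
  have v2 := inv_val (f.tri k ω') (fun j => hκ k ω' j) c4 (fun j a => c1 ω' hω' j a) c6
    (show 0 ≤ (Kp k + 1) * S.dl 1 k by positivity) (by rw [hL]) hs (fun i => S.dl (La i) k * f.X.v k ω i)
    ((l.pj.vv Q).v k ω') (hUB ω hω) (fun i => by
      have h2 := c2 ω hω i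
      rw [hP] at h2
      have h3 : (l.pj.vv Q).v k ω' i - (eval (fun i => S.dl (La i) k * f.X.v k ω i) (f.P k ω' i) +
          S.dl (La i) k * f.X.v k ω i) = ((l.pj.vv Q).v k ω i - (eval (fun i => S.dl (La i) k * f.X.v k ω i)
          (f.P k ω' i) + S.dl (La i) k * f.X.v k ω i)) - ((l.pj.vv Q).v k ω i - (l.pj.vv Q).v k ω' i) := by ring
      rw [h3]
      refine (abs_sub _ _).trans ?_
      have h4 := hQ i
      linarith) j
  have e1 : S.dl (La j) k * |f.X.v k ω j - f.X.v k ω' j| ≤ 2 * ((1 + L k) ^ M * ((Kp k + 1) * S.dl 1 k)) := by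
    have h2 : S.dl (La j) k * |f.X.v k ω j - f.X.v k ω' j| = |S.dl (La j) k * (f.X.v k ω j - f.X.v k ω' j)| := by
      rw [abs_mul, abs_of_pos (S.dl_pos (La j) k)]
    rw [h2]
    have h3 : S.dl (La j) k * (f.X.v k ω j - f.X.v k ω' j) =
        (eval ((l.pj.vv Q).v k ω') (inv (f.P k ω') j) - S.dl (La j) k * f.X.v k ω' j) -
        (eval ((l.pj.vv Q).v k ω') (inv (f.P k ω') j) - S.dl (La j) k * f.X.v k ω j) := by ring
    rw [h3]
    refine (abs_sub _ _).trans ?_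
    linarith
  have e2 : S.dl 1 k ≤ S.dl (La j) k * S.dl e k := by
    rw [← Sp.dl_add]
    exact S.dl_anti (h1 j) k
  have h5 : 0 ≤ 2 * ((1 + L k) ^ M * (Kp k + 1)) := by positivity
  have e3 : S.dl (La j) k * |f.X.v k ω j - f.X.v k ω' j| ≤
      S.dl (La j) k * (2 * ((1 + L k) ^ M * (Kp k + 1)) * S.dl e k) := by
    calc S.dl (La j) k * |f.X.v k ω j - f.X.v k ω' j| ≤ 2 * ((1 + L k) ^ M * ((Kp k + 1) * S.dl 1 k)) := e1
      _ = 2 * ((1 + L k) ^ M * (Kp k + 1)) * S.dl 1 k := by ring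
      _ ≤ 2 * ((1 + L k) ^ M * (Kp k + 1)) * (S.dl (La j) k * S.dl e k) := mul_le_mul_of_nonneg_left e2 h5
      _ = _ := by ring
  exact le_of_mul_le_mul_left e3 (S.dl_pos _ _)

/-- elements of the lattice over a label as digits -/
theorem upL_dg {p : ℕ} (y : S.VV p) (l : Lab S) (e : ℝ) (he : 0 < e) (r : ℝ) :
    l.upL e he (y.dg (e * r)) = ((l.pj.vv y).chg l.V e he).dg r := by
  rw [VV.chg_dg, ← l.pj.map_dg]
  rfl

variable {s : MSys S M E ι} {l : Lab S} {La : Fin M → ℝ} {c e : ℝ} {he : 0 < e} {t : MSys (l.ovr e he) M E' ι}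

theorem ovr_dl (l : Lab S) (e : ℝ) (he : 0 < e) (r : ℝ) (k : ℕ) : (l.ovr e he).dl r k = S.dl (e * r) k := by
  have h1 : (l.ovr e he).dl r k = l.sp.dl (e * r) k := chg_dl l.V e he r k
  rw [h1, sp_dl]

/-- the digits of the point of the zoom are known to the digits of the point -/
theorem gz_Q (f : Frm s.Q l La) {κ : ℕ} (hκ : ∀ k ω j, (f.P k ω j).totalDegree ≤ κ) (h0 : ∀ i, 0 ≤ La i)
    (h1 : ∀ i, La i + e ≤ 1) (hg : Gz s l c e he f.X t) : t.Q.dg 1 ≤ l.upL e he (s.Q.dg 1) := by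
  have e1 : l.upL e he (s.Q.dg 1) = ((l.pj.vv s.Q).chg l.V e he).dg e⁻¹ := by
    rw [← upL_dg, mul_inv_cancel₀ he.ne']
  rw [e1]
  obtain ⟨K, hK, hk⟩ := frm_close f hκ h0 h1
  obtain ⟨K', hK', hk'⟩ := hg.pt
  have hKs : (l.ovr e he).Sub (fun k => K k + 2 * K' k) := by
    have h2 : S.Sub (fun k => K k + 2 * K' k) := hK.add ((S.Sub_const (by norm_num)).mul hK')
    have h3 : l.sp.Sub (fun k => K k + 2 * K' k) := (sp_Sub l).mpr h2
    exact chg_sub l.V e he h3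
  apply VV.dg_le_dg (S := l.ovr e he) _ _ _ _ (fun _ _ => True) Typ_true (fun k => K k + 2 * K' k) hKs
  filter_upwards [hk, hk'] with k g1 g2 ω ω' a b _ _ z q j
  have e2 : (l.ovr e he).dl 1 k = S.dl e k := by rw [ovr_dl, mul_one]
  have e3 : (l.ovr e he).dl e⁻¹ k = S.dl 1 k := by rw [ovr_dl, mul_inv_cancel₀ he.ne']
  rw [e2]
  have h2 := g1 ω ω' a b z.2 z.1 (fun i => by
    have := q i
    rw [e3] at this
    exact this) j
  have h3 := g2 ω a j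
  have h4 := g2 ω' b j
  have h5 : t.Q.v k ω j - t.Q.v k ω' j = (t.Q.v k ω j - f.X.v k ω j) - (t.Q.v k ω' j - f.X.v k ω' j) +
      (f.X.v k ω j - f.X.v k ω' j) := by ring
  rw [h5]
  have h6 := abs_add_le ((t.Q.v k ω j - f.X.v k ω j) - (t.Q.v k ω' j - f.X.v k ω' j)) (f.X.v k ω j - f.X.v k ω' j)
  have h7 := abs_sub (t.Q.v k ω j - f.X.v k ω j) (t.Q.v k ω' j - f.X.v k ω' j)
  calc _ ≤ K' k * S.dl e k + K' k * S.dl e k + K k * S.dl e k := by linarith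
    _ = (K k + 2 * K' k) * S.dl e k := by ring

/-- the conditions of the zoom are known to the conditions of the system -/
theorem gz_cnd (f : Frm s.Q l La) {κ : ℕ} (hκ : ∀ k ω j, (f.P k ω j).totalDegree ≤ κ) (h0 : ∀ i, 0 ≤ La i)
    (h1 : ∀ i, La i + e ≤ 1) (hg : Gz s l c e he f.X t) {b : ℝ} (hb0 : 0 ≤ b) (hb1 : b ≤ 1) (i : Option ι) :
    PLe (t.cnd b i) (l.up e he (s.cnd (c + e * b) i)) := by
  rcases i with _ | i
  · have e1 : t.cnd b none = rpI (t.Q.bdd 1).toInf := rfl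
    have e2 : l.up e he (s.cnd (c + e * b) none) = rpI (l.upI e he (s.Q.bdd 1).toInf) := rfl
    rw [e1, e2, PLe_rpI]
    have h2 := gz_Q f hκ h0 h1 hg
    have e3 : t.Q.dg 1 = cl (t.Q.bdd 1).toInf := io_eq (t.Q.bdd 1)
    have e4 : s.Q.dg 1 = cl (s.Q.bdd 1).toInf := io_eq (s.Q.bdd 1)
    rw [e3, e4, Lab.upL_cl] at h2
    exact h2
  · exact (hg.win b i hb0 hb1).1

/-- labels of the zoom are labels of the system -/
theorem gz_comp (f : Frm s.Q l La) {κ : ℕ} (hκ : ∀ k ω j, (f.P k ω j).totalDegree ≤ κ) (h0 : ∀ i, 0 ≤ La i)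
    (h1 : ∀ i, La i + e ≤ 1) (hg : Gz s l c e he f.X t) (hl : s.DMc c l) {b : ℝ} (hb0 : 0 ≤ b) (hb1 : b ≤ 1)
    {l' : Lab (l.ovr e he)} (hl' : t.DMc b l') : s.DMc (c + e * b) (l.comp e he l') := by
  have h2 : l.DMf (s.cnd (c + e * b)) := by
    refine Lab.DMf.mono hl fun i => ⟨i, ?_⟩
    rcases i with _ | i
    · exact PLe_of_le fun _ => le_rfl
    · exact (s.lf i).win_mono (by nlinarith)
  refine Lab.DMf.comp h2 ?_
  exact Lab.DMf.mono hl' fun i => ⟨i, gz_cnd f hκ h0 h1 hg hb0 hb1 i⟩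

/-- the label of a frame knows the first digits of the point -/
theorem frm_dg {Q : S.VV M} (f : Frm Q l La) {κ : ℕ} (hκ : ∀ k ω j, (f.P k ω j).totalDegree ≤ κ) (h0 : ∀ i, 0 ≤ La i)
    {r : ℝ} (hr : ∀ i, r ≤ La i) (hr1 : r ≤ 1) : up1 l (Q.dg r) = ⊥ := by
  have e1 : up1 l (Q.dg r) = ((l.pj.vv Q).chg l.V 1 one_pos).dg r := by
    rw [← upL_dg, one_mul]
  rw [e1]
  obtain ⟨Kc, hKc, hc⟩ := f.bd
  obtain ⟨Kp, hKp, hp⟩ := f.pt
  obtain ⟨Kx, hKx', hx⟩ := f.X.bd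
  have hKx : S.Sub Kx := (sp_Sub l).mp hKx'
  obtain ⟨L, hL⟩ : ∃ L : ℕ → ℝ, L = fun k => ((κ : ℝ) + 1) ^ M * Kc k * (κ * (Kx k + 1) ^ κ) := ⟨_, rfl⟩
  have hLS : S.Sub L := by rw [hL]; exact Sub_L hKc hKx M κ
  have hs : S.Sub (fun k => 2 * (L k * Kx k + Kx k + Kp k)) :=
    (S.Sub_const (by norm_num)).mul (((hLS.mul hKx).add hKx).add hKp)
  have hKs : (l.ovr 1 one_pos).Sub (fun k => 2 * (L k * Kx k + Kx k + Kp k)) :=
    chg_sub l.V 1 one_pos ((sp_Sub l).mpr hs)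
  apply le_antisymm _ bot_le
  rw [← cl_bot]
  apply VV.dg_le_cl (S := l.ovr 1 one_pos) _ _ _ (fun _ _ => True) Typ_true _ hKs
  filter_upwards [hc, hp, hx, hKc.1, hKp.1, hKx.1, f.fn] with k c1 c2 c3 c4 c5 c6 c8 ω ω' a b _ _ z _ j
  have e2 : (l.ovr 1 one_pos).dl r k = S.dl r k := by rw [ovr_dl, one_mul]
  rw [e2]
  have hL0 : 0 ≤ L k := by rw [hL]; positivity
  have hdi : ∀ i, S.dl (La i) k ≤ 1 := fun i => by
    rw [← S.dl_zero k]
    exact S.dl_anti (h0 i) k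
  have hP : f.P k ω = f.P k ω' := c8 ω ω' a b z.2 z.1
  have key : ∀ ω : (l.sp.F k).Ω, (l.sp.F k).μ ω ≠ 0 →
      |(l.pj.vv Q).v k ω j - eval 0 (f.P k ω j)| ≤ (L k * Kx k + Kx k + Kp k) * S.dl r k := by
    intro ω hω
    have hU : ∀ i, |S.dl (La i) k * f.X.v k ω i| ≤ Kx k * S.dl r k := by
      intro i
      rw [abs_mul, abs_of_pos (S.dl_pos _ _), mul_comm]
      exact mul_le_mul (c3 ω hω i) (S.dl_anti (hr i) k) (S.dl_pos _ _).le c6
    have hU1 : ∀ i, |S.dl (La i) k * f.X.v k ω i| ≤ Kx k + 1 := by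
      intro i
      rw [abs_mul, abs_of_pos (S.dl_pos _ _)]
      have h2 := c3 ω hω i
      have h3 := mul_le_mul (hdi i) h2 (abs_nonneg _) zero_le_one
      linarith
    have h2 := eval_sub_le (f.P k ω j) (hκ k ω j) (fun i => S.dl (La i) k * f.X.v k ω i) 0 (Kx k + 1) (Kc k)
      (Kx k * S.dl r k) (by linarith) c4 (mul_nonneg c6 (S.dl_pos _ _).le) hU1 (fun i => by
        rw [Pi.zero_apply, abs_zero]
        linarith) (fun i => by
        rw [Pi.zero_apply, sub_zero]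
        exact hU i) (fun s => c1 ω hω j s)
    have h3 := c2 ω hω j
    have h4 := hU j
    have h5 : (l.pj.vv Q).v k ω j - eval 0 (f.P k ω j) = ((l.pj.vv Q).v k ω j - (eval (fun i => S.dl (La i) k *
        f.X.v k ω i) (f.P k ω j) + S.dl (La j) k * f.X.v k ω j)) + (eval (fun i => S.dl (La i) k * f.X.v k ω i)
        (f.P k ω j) - eval 0 (f.P k ω j)) + S.dl (La j) k * f.X.v k ω j := by ring
    rw [h5]
    refine (abs_add_le _ _).trans ?_
    have h6 := abs_add_le ((l.pj.vv Q).v k ω j - (eval (fun i => S.dl (La i) k *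
        f.X.v k ω i) (f.P k ω j) + S.dl (La j) k * f.X.v k ω j)) (eval (fun i => S.dl (La i) k * f.X.v k ω i)
        (f.P k ω j) - eval 0 (f.P k ω j))
    have h7 : Kp k * S.dl 1 k ≤ Kp k * S.dl r k := mul_le_mul_of_nonneg_left (S.dl_anti hr1 k) c5
    have h8 : ((κ : ℝ) + 1) ^ M * Kc k * (κ * (Kx k + 1) ^ κ) * (Kx k * S.dl r k) = L k * Kx k * S.dl r k := by
      rw [hL]
      ring
    rw [h8] at h2
    calc _ ≤ Kp k * S.dl r k + L k * Kx k * S.dl r k + Kx k * S.dl r k := by linarith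
      _ = (L k * Kx k + Kx k + Kp k) * S.dl r k := by ring
  have k1 := key ω a
  have k2 := key ω' b
  rw [hP] at k1
  show |(l.pj.vv Q).v k ω j - (l.pj.vv Q).v k ω' j| ≤ _
  have h5 : (l.pj.vv Q).v k ω j - (l.pj.vv Q).v k ω' j = ((l.pj.vv Q).v k ω j - eval 0 (f.P k ω' j)) -
      ((l.pj.vv Q).v k ω' j - eval 0 (f.P k ω' j)) := by ring
  rw [h5]
  refine (abs_sub _ _).trans ?_
  calc _ ≤ (L k * Kx k + Kx k + Kp k) * S.dl r k + (L k * Kx k + Kx k + Kp k) * S.dl r k := add_le_add k1 k2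
    _ = 2 * (L k * Kx k + Kx k + Kp k) * S.dl r k := by ring

end

end Pool.Agent.Helper90.HR1
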