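import Pool.Agent.Helper90.HR1.Tp
import Pool.Agent.Helper90.HR1.Gzf
import Pool.Agent.Helper26.OUT.Mk
import Pool.Agent.Helper49.MD.Ml
import Pool.Agent.Helper81.MT.Trn
import Pool.Agent.Helper99.EC.FinB

/-! The property (R1) of systems of leaves with polynomial charts of weighted degree `w`: the top forms of all types are
independent of the point. -/

set_option autoImplicit false

namespace Pool.Agent.Helper90.HR1

open Finset Filter Topology MvPolynomial Pool.Agent.Helper69.RK Pool.Agent.Helper31.EC Pool.Agent.Helper31.EC.Sp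
open Pool.Agent.Helper40.EL Pool.Agent.Helper89.LX Pool.Agent.Helper3.LF Pool.Agent.Helper84.MT
open Pool.Agent.Helper36.AM Pool.Agent.Helper49.MD Pool.Agent.Helper26.OUT

noncomputable section

variable {S T : Sp} {M : ℕ} {E : ℕ → ℕ} {ι : Type}

/-- informations of two elements are limits -/
theorem tendsto_I (A B : S.Inf) : Tendsto (fun k => I (fc (A.1 k)) (fc (B.1 k)) (⊥ : FL (S.F k)) / (S.F k).n) UF
    (𝓝 (I (cl A) (cl B) ⊥)) := by
  have h1 : I (cl A) (cl B) ⊥ = h (cl A) ⊥ - h (cl A) (cl B) := by rw [I_eq, sup_bot_eq]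
  have e1 : (⊥ : S.L) = cl (⟨S.tr, S.VB_tr⟩ : S.Inf) := by
    rw [← cl_bot]
    rfl
  have e2 : h (cl A) ⊥ = ul (S.rt A.1 S.tr) := by
    rw [e1, h_cl]
  have e3 : h (cl A) (cl B) = ul (S.rt A.1 B.1) := h_cl A B
  rw [h1, e2, e3]
  refine ((ul_tendsto (UB_rt A _)).sub (ul_tendsto (UB_rt A _))).congr fun k => ?_
  rw [I_eq, sup_bot_eq, sub_div]
  have e4 : (⊥ : FL (S.F k)) = fc (⊤ : Setoid (S.F k).Ω) := rfl
  rw [e4, h_fc, h_fc]
  rfl

/-! ### the finite predicate -/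

/-- a bound of the weights -/
def wb (w : Fin M → ℝ) : ℕ := ⌈∑ j, |w j|⌉₊

theorem le_wb (w : Fin M → ℝ) (j : Fin M) : w j ≤ wb w := by
  refine (le_abs_self _).trans (le_trans ?_ (Nat.le_ceil _))
  exact Finset.single_le_sum (f := fun j => |w j|) (fun _ _ => abs_nonneg _) (Finset.mem_univ j)

/-- the top forms of all types, rounded -/
def ttop (w : Fin M → ℝ) (F : FSp) (x : FMs F.Ω M ι) : Setoid F.Ω :=
  Setoid.ker fun ω (i : ι) (p : Fin M × (Fin (x.lf i).e → Fin (wb w + 1))) =>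
    ⌊tpc w (wb w) ((x.lf i).F ω) p / dlF F 1⌋

/-- the cell of the point -/
def qtop (F : FSp) (x : FMs F.Ω M ι) : Setoid F.Ω := Setoid.ker fun ω => cell (dlF F 1) (x.Q ω)

/-- (R1) as an approximate predicate -/
def R1A (w : Fin M → ℝ) (ι : Type) : AP (KM M ι) where
  P := fun F (x : FMs F.Ω M ι) δ => I (fc (ttop w F x)) (fc (qtop F x)) (⊥ : FL F) / F.n ≤ δ
  mono := fun _ _ _ _ h hx => le_trans hx h

/-- (R1): THE TOP FORMS OF ALL TYPES ARE INDEPENDENT OF THE POINT -/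
def R1 (w : Fin M → ℝ) (s : MSys S M E ι) : Prop := (R1A w ι).pd 0 S (ob s)

/-! ### the variable of the top forms -/

/-- the indices of the coefficients -/
abbrev Tix (e : ι → ℕ) (M W : ℕ) : Type := Σ i : ι, Fin M × (Fin (e i) → Fin (W + 1))

section tpV

variable [Fintype ι]

/-- THE TOP FORMS of all types -/
def tpV {w : Fin M → ℝ} {s : MSys S M E ι} (hs : WDs w s) :
    S.VV (Fintype.card (Tix (fun i => (s.lf i).e) M (wb w))) where
  v := fun k ω n => tpc w (wb w) ((s.lf ((Fintype.equivFin (Tix (fun i => (s.lf i).e) M (wb w))).symm n).1).F k ω)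
    ((Fintype.equivFin (Tix (fun i => (s.lf i).e) M (wb w))).symm n).2
  bd := by
    have h1 : ∀ i : ι, ∃ K : ℕ → ℝ, S.Sub K ∧ ∀ᶠ k in UF, ∀ ω, (S.F k).μ ω ≠ 0 →
        ∀ p : Fin M × (Fin (s.lf i).e → Fin (wb w + 1)), |tpc w (wb w) ((s.lf i).F k ω) p| ≤ K k := by
      intro i
      obtain ⟨G, hF, hG⟩ := hs i
      obtain ⟨K, hK, hb⟩ := (s.lf i).bd
      obtain ⟨C', h0, hC⟩ := tpc_bd (s.lf i).e M (wb w)
      refine ⟨fun k => C' * K k, (S.Sub_const h0).mul hK, ?_⟩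
      filter_upwards [hF, hb, hK.1] with k a1 a2 a3 ω hω p
      exact hC w ((s.lf i).F k ω) (G k ω) (fun y j => a1 ω hω y j) (fun j => hG k ω j) (le_wb w)
        ((s.lf i).Y.v k ω) (K k) a3 (fun y hy j => a2 ω hω y hy j) p
    choose K hK hb using h1
    refine ⟨fun k => ∑ i, K i k, Pool.Agent.Helper99.EC.Sub_sum hK, ?_⟩
    have hn : ∀ᶠ k in UF, ∀ i, 0 ≤ K i k := eventually_all.mpr fun i => (hK i).1
    filter_upwards [eventually_all.mpr hb, hn] with k a b ω hω n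
    refine (a _ ω hω _).trans ?_
    exact Finset.single_le_sum (f := fun i => K i k) (fun i _ => b i) (Finset.mem_univ _)

theorem tpV_v {w : Fin M → ℝ} {s : MSys S M E ι} (hs : WDs w s) (k : ℕ) (ω : (S.F k).Ω)
    (q : Tix (fun i => (s.lf i).e) M (wb w)) :
    (tpV hs).v k ω (Fintype.equivFin _ q) = tpc w (wb w) ((s.lf q.1).F k ω) q.2 := by
  show tpc w (wb w) ((s.lf ((Fintype.equivFin (Tix (fun i => (s.lf i).e) M (wb w))).symm
    (Fintype.equivFin _ q)).1).F k ω) ((Fintype.equivFin (Tix (fun i => (s.lf i).e) M (wb w))).symm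
    (Fintype.equivFin _ q)).2 = _
  rw [Equiv.symm_apply_apply]

theorem ker_tpV {w : Fin M → ℝ} {s : MSys S M E ι} (hs : WDs w s) (k : ℕ) :
    Setoid.ker ((tpV hs).cellv 1 k) = ttop w (S.F k) (ob s k) := by
  apply Setoid.ext
  intro ω ω'
  constructor
  · intro h1
    have h2 : (tpV hs).cellv 1 k ω = (tpV hs).cellv 1 k ω' := h1
    show (fun (i : ι) (p : Fin M × (Fin (s.lf i).e → Fin (wb w + 1))) =>
      ⌊tpc w (wb w) ((s.lf i).F k ω) p / dlF (S.F k) 1⌋) = fun (i : ι) p =>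
      ⌊tpc w (wb w) ((s.lf i).F k ω') p / dlF (S.F k) 1⌋
    funext i p
    have h3 := congrFun h2 (Fintype.equivFin _ ⟨i, p⟩)
    have h4 : ⌊(tpV hs).v k ω (Fintype.equivFin _ ⟨i, p⟩) / S.dl 1 k⌋ =
      ⌊(tpV hs).v k ω' (Fintype.equivFin _ ⟨i, p⟩) / S.dl 1 k⌋ := h3
    rw [tpV_v hs k ω ⟨i, p⟩, tpV_v hs k ω' ⟨i, p⟩] at h4
    exact h4
  · intro h1
    have h2 : (fun (i : ι) (p : Fin M × (Fin (s.lf i).e → Fin (wb w + 1))) =>
      ⌊tpc w (wb w) ((s.lf i).F k ω) p / dlF (S.F k) 1⌋) = fun (i : ι) p =>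
      ⌊tpc w (wb w) ((s.lf i).F k ω') p / dlF (S.F k) 1⌋ := h1
    show (tpV hs).cellv 1 k ω = (tpV hs).cellv 1 k ω'
    funext n
    have h3 := congrFun (congrFun h2 ((Fintype.equivFin (Tix (fun i => (s.lf i).e) M (wb w))).symm n).1)
      ((Fintype.equivFin (Tix (fun i => (s.lf i).e) M (wb w))).symm n).2
    exact h3

/-- (R1) in the calculus of rates -/
theorem R1_iff {w : Fin M → ℝ} {s : MSys S M E ι} (hs : WDs w s) :
    R1 w s ↔ I ((tpV hs).dg 1) (s.Q.dg 1) ⊥ = 0 := by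
  have e1 : (tpV hs).dg 1 = cl ((tpV hs).bdd 1).toInf := io_eq ((tpV hs).bdd 1)
  have e2 : s.Q.dg 1 = cl (s.Q.bdd 1).toInf := io_eq (s.Q.bdd 1)
  have t := tendsto_I ((tpV hs).bdd 1).toInf (s.Q.bdd 1).toInf
  rw [← e1, ← e2] at t
  have t' : Tendsto (fun k => I (fc (ttop w (S.F k) (ob s k))) (fc (qtop (S.F k) (ob s k))) (⊥ : FL (S.F k)) /
      (S.F k).n) UF (𝓝 (I ((tpV hs).dg 1) (s.Q.dg 1) ⊥)) := by
    refine t.congr fun k => ?_
    have e3 : ((tpV hs).bdd 1).toInf.1 k = Setoid.ker ((tpV hs).cellv 1 k) := rfl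
    rw [e3, ker_tpV]
    rfl
  constructor
  · intro h1
    apply le_antisymm _ (I_nonneg _ _ _)
    apply le_of_forall_pos_le_add
    intro δ hδ
    rw [zero_add]
    exact le_of_tendsto t' (h1 δ hδ)
  · intro h1 δ hδ
    rw [h1] at t'
    exact (t'.eventually (gt_mem_nhds hδ)).mono fun k hk => hk.le

/-- approximately -/
theorem R1_lt {w : Fin M → ℝ} {s : MSys S M E ι} (hs : WDs w s) {δ : ℝ} (h1 : I ((tpV hs).dg 1) (s.Q.dg 1) ⊥ < δ) :
    (R1A w ι).pd δ S (ob s) := by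
  have e1 : (tpV hs).dg 1 = cl ((tpV hs).bdd 1).toInf := io_eq ((tpV hs).bdd 1)
  have e2 : s.Q.dg 1 = cl (s.Q.bdd 1).toInf := io_eq (s.Q.bdd 1)
  have t := tendsto_I ((tpV hs).bdd 1).toInf (s.Q.bdd 1).toInf
  rw [← e1, ← e2] at t
  have t' : Tendsto (fun k => I (fc (ttop w (S.F k) (ob s k))) (fc (qtop (S.F k) (ob s k))) (⊥ : FL (S.F k)) /
      (S.F k).n) UF (𝓝 (I ((tpV hs).dg 1) (s.Q.dg 1) ⊥)) := by
    refine t.congr fun k => ?_
    have e3 : ((tpV hs).bdd 1).toInf.1 k = Setoid.ker ((tpV hs).cellv 1 k) := rfl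
    rw [e3, ker_tpV]
    rfl
  intro δ' hδ'
  exact (t'.eventually (gt_mem_nhds (h1.trans hδ'))).mono fun k hk => hk.le

end tpV

end

end Pool.Agent.Helper90.HR1
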