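import Pool.Agent.Helper90.HR1.Cl
import Pool.Agent.Helper49.MD.Lim

/-! (R1) under images, truncations and zooms. -/

set_option autoImplicit false

namespace Pool.Agent.Helper90.HR1

open Finset Filter Topology MvPolynomial Pool.Agent.Helper69.RK Pool.Agent.Helper31.EC Pool.Agent.Helper31.EC.Sp
open Pool.Agent.Helper40.EL Pool.Agent.Helper89.LX Pool.Agent.Helper3.LF Pool.Agent.Helper84.MT
open Pool.Agent.Helper36.AM Pool.Agent.Helper49.MD Pool.Agent.Helper26.OUT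

noncomputable section

variable {S T : Sp} {M : ℕ} {E : ℕ → ℕ} {ι : Type} [Fintype ι] {w : Fin M → ℝ}

/-! ### images -/

theorem R1_im {s : MSys S M E ι} (hs : WDs w s) (h1 : R1 w s) {T : Sp} (p : Pj T S) (A : ∀ k, (T.F k).Ω → Prop)
    (hA : 0 < ul (T.pr A)) (hs' : WDs w (s.im p A hA)) : R1 w (s.im p A hA) := by
  rw [R1_iff hs] at h1
  rw [R1_iff hs']
  have e1 : (tpV hs').dg 1 = ((tpV hs).im p A).dg 1 := rfl
  have e2 : (s.im p A hA).Q.dg 1 = (s.Q.im p A).dg 1 := rfl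
  rw [e1, e2, ← (imq p A).I_map, VV.im_dg p A (tpV hs) 1 hA, VV.im_dg p A s.Q 1 hA, (imq p A).map_bot]
  have h2 : I (p.map ((tpV hs).dg 1)) (p.map (s.Q.dg 1)) ⊥ = 0 := by
    rw [← p.map_bot, p.I_map, h1]
  exact I_rest_zero A hA h2

/-! ### truncations -/

theorem I_trn (e : ℝ) (he : 0 < e) (x y : S.L) : I (chgL S.tr e he x) (chgL S.tr e he y) ⊥ = I x y ⊥ / e := by
  have h1 := I_chgL_inf e he (⟨S.tr, S.VB_tr⟩ : S.Inf) x y ⊥
  have e1 : (cl (⟨S.tr, S.VB_tr⟩ : S.Inf) : S.L) = ⊥ := by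
    rw [← cl_bot]
    rfl
  rw [e1, sup_bot_eq, chgL_bot] at h1
  exact h1

theorem I_trn_tp {s : MSys S M E ι} (hs : WDs w s) {e : ℝ} (he : 0 < e) (h1 : e ≤ 1) (hs' : WDs w (s.trn e he h1)) :
    I ((tpV hs').dg 1) ((s.trn e he h1).Q.dg 1) ⊥ = I ((tpV hs).dg e) (s.Q.dg e) ⊥ / e := by
  have e1 : (tpV hs').dg 1 = ((tpV hs).chg S.tr e he).dg 1 := rfl
  have e2 : (s.trn e he h1).Q.dg 1 = (s.Q.chg S.tr e he).dg 1 := rfl
  rw [e1, e2, VV.chg_dg, VV.chg_dg, mul_one, I_trn]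

theorem R1_trn {s : MSys S M E ι} (hs : WDs w s) (h1 : R1 w s) {e : ℝ} (he : 0 < e) (he1 : e ≤ 1)
    (hs' : WDs w (s.trn e he he1)) : R1 w (s.trn e he he1) := by
  rw [R1_iff hs] at h1
  rw [R1_iff hs', I_trn_tp hs he he1]
  have h2 : I ((tpV hs).dg e) (s.Q.dg e) ⊥ ≤ I ((tpV hs).dg 1) (s.Q.dg 1) ⊥ :=
    Pool.Agent.Helper31.EC.I_mono (((tpV hs).dg_mono he1).trans le_sup_left) ((s.Q.dg_mono he1).trans le_sup_left)
  have h3 := I_nonneg ((tpV hs).dg e) (s.Q.dg e) ⊥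
  have h4 : I ((tpV hs).dg e) (s.Q.dg e) ⊥ = 0 := by linarith
  rw [h4, zero_div]

/-! ### zooms -/

theorem tpc_cast {e e' : ℕ} (h : e' = e) (w : Fin M → ℝ) (W : ℕ) (F : (Fin e' → ℝ) → Fin M → ℝ)
    (p : Fin M × (Fin e → Fin (W + 1))) :
    tpc w W F (p.1, fun m => p.2 (Fin.cast h m)) = tpc w W (fun y : Fin e → ℝ => F (fun m => y (Fin.cast h m))) p := by
  subst h
  rfl

theorem wd_cast {e e' : ℕ} (h : e' = e) {F : (Fin e' → ℝ) → Fin M → ℝ} {G : Fin M → MvPolynomial (Fin e') ℝ}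
    (hF : ∀ y j, F y j = eval y (G j)) (hG : ∀ j, ((G j).totalDegree : ℝ) ≤ w j) :
    ∃ G' : Fin M → MvPolynomial (Fin e) ℝ, (∀ (y : Fin e → ℝ) j, F (fun m => y (Fin.cast h m)) j = eval y (G' j)) ∧
      ∀ j, ((G' j).totalDegree : ℝ) ≤ w j := by
  subst h
  exact ⟨G, hF, hG⟩

/-- TOP FORMS OF THE ZOOM -/
theorem tp_zoom {s : MSys S M E ι} (hs : WDs w s) (hw : ∀ j, 0 < w j) {l : Lab S} {c e : ℝ} {he : 0 < e} (hc : 0 < c)
    (f : Frm s.Q l (fun j => w j * c)) {E' : ℕ → ℕ} {t : MSys (l.ovr e he) M E' ι} (ht : WDs w t)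
    (hL : ∀ i, Lfr (s.lf i) f c e he (t.lf i)) (r : ℝ) : (tpV ht).dg r = l.upL e he ((tpV hs).dg (e * r)) := by
  classical
  rw [upL_dg]
  choose hd o hY hT using hL
  have hA := Pool.Agent.Helper7.GZ.Typ_all (S := l.sp) (fun i k (ω : (l k).T.Ω) => ∀ (y : Fin (s.lf i).e → ℝ) j,
      (s.lf i).F k ((l k).p.π ω) (fun m => o i k ω m + S.dl c k * y m) j =
        eval (fun a => S.dl (w a * c) k * (t.lf i).F k ω (fun m => y (Fin.cast (hd i) m)) a) (f.P k ω j) +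
          S.dl (w j * c) k * (t.lf i).F k ω (fun m => y (Fin.cast (hd i) m)) j) hT
  set A : ∀ k, (l k).T.Ω → Prop := fun k (ω : (l k).T.Ω) => ∀ i, ∀ (y : Fin (s.lf i).e → ℝ) j,
      (s.lf i).F k ((l k).p.π ω) (fun m => o i k ω m + S.dl c k * y m) j =
        eval (fun a => S.dl (w a * c) k * (t.lf i).F k ω (fun m => y (Fin.cast (hd i) m)) a) (f.P k ω j) +
          S.dl (w j * c) k * (t.lf i).F k ω (fun m => y (Fin.cast (hd i) m)) j with hAdef
  have hA' : Typ (S := l.ovr e he) A := hA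
  have hs2 := hs
  have ht2 := ht
  choose Gs hGs hGs' using hs2
  choose Gt hGt hGt' using ht2
  have key : ∀ᶠ k in UF, ∀ ω : (l k).T.Ω, (l k).T.μ ω ≠ 0 → A k ω → ∀ (i : ι)
      (p : Fin M × (Fin (s.lf i).e → Fin (wb w + 1))), tpc w (wb w) ((t.lf i).F k ω)
        (p.1, fun m => p.2 (Fin.cast (hd i) m)) = tpc w (wb w) ((s.lf i).F k ((l k).p.π ω)) p := by
    filter_upwards [eventually_all.mpr hGs, eventually_all.mpr hGt] with k a1 a2 ω hω hAω i p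
    rw [tpc_cast (hd i)]
    obtain ⟨G', hG1, hG2⟩ := wd_cast (w := w) (hd i) (F := (t.lf i).F k ω) (G := Gt i k ω)
      (fun y j => a2 i ω hω y j) (fun j => hGt' i k ω j)
    refine tpc_zoom hw (wb w) (Gs := Gs i k ((l k).p.π ω)) (Gt := G')
      (fun y j => a1 i ((l k).p.π ω) ((l k).p.supp ω hω) y j) hG1 (fun j => hGs' i k _ j) hG2 (P := f.P k ω)
      (fun j b hb hb0 => ?_) (o i k ω) (S.dl_pos c k) (fun j => S.dl (w j * c) k) (fun j => ?_)
      (fun y j => hAω i y j) p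
    · have h2 := f.red k ω j b hb hb0
      have h3 : (∑ i, (b i : ℝ) * w i) * c < w j * c := by
        rw [Finset.sum_mul]
        refine lt_of_le_of_lt (le_of_eq (Finset.sum_congr rfl fun i _ => ?_)) h2
        ring
      exact lt_of_mul_lt_mul_right h3 hc.le
    · unfold Sp.dl
      rw [← Real.rpow_mul (by norm_num)]
      congr 1
      ring
  apply le_antisymm
  · apply VV.dg_le_dg (S := l.ovr e he) _ _ _ _ A hA' (fun _ => 1) ((l.ovr e he).Sub_const zero_le_one)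
    filter_upwards [key] with k hk ω ω' a b aA bA _ g n
    obtain ⟨⟨i, q⟩, rfl⟩ := (Fintype.equivFin (Tix (fun i => (t.lf i).e) M (wb w))).surjective n
    rw [tpV_v, tpV_v, one_mul]
    have k1 := hk ω a aA i (q.1, fun m => q.2 (Fin.cast (hd i).symm m))
    have k2 := hk ω' b bA i (q.1, fun m => q.2 (Fin.cast (hd i).symm m))
    have k3 := g (Fintype.equivFin _ ⟨i, (q.1, fun m => q.2 (Fin.cast (hd i).symm m))⟩)
    have k4 : |(tpV hs).v k ((l k).p.π ω) (Fintype.equivFin _ ⟨i, (q.1, fun m => q.2 (Fin.cast (hd i).symm m))⟩) -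
      (tpV hs).v k ((l k).p.π ω') (Fintype.equivFin _ ⟨i, (q.1, fun m => q.2 (Fin.cast (hd i).symm m))⟩)| ≤
        (l.ovr e he).dl r k := k3
    rw [tpV_v, tpV_v] at k4
    rw [← k1, ← k2] at k4
    exact k4
  · apply VV.dg_le_dg (S := l.ovr e he) _ _ _ _ A hA' (fun _ => 1) ((l.ovr e he).Sub_const zero_le_one)
    filter_upwards [key] with k hk ω ω' a b aA bA _ g n
    obtain ⟨⟨i, q⟩, rfl⟩ := (Fintype.equivFin (Tix (fun i => (s.lf i).e) M (wb w))).surjective n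
    show |(tpV hs).v k ((l k).p.π ω) (Fintype.equivFin _ ⟨i, q⟩) -
      (tpV hs).v k ((l k).p.π ω') (Fintype.equivFin _ ⟨i, q⟩)| ≤ 1 * (l.ovr e he).dl r k
    rw [tpV_v, tpV_v, one_mul]
    have k1 := hk ω a aA i q
    have k2 := hk ω' b bA i q
    have k4 := g (Fintype.equivFin _ ⟨i, (q.1, fun m => q.2 (Fin.cast (hd i) m))⟩)
    rw [tpV_v, tpV_v] at k4
    rw [← k1, ← k2]
    exact k4

end

end Pool.Agent.Helper90.HR1
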