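import Pool.Agent.Helper90.HR1.Cz

/-! Row R1: every homogeneous class has a homogeneous subclass whose members have (R1): the top forms of all types are
independent of the point. -/

set_option autoImplicit false

namespace Pool.Agent.Helper90.HR1

open Finset Filter Topology MvPolynomial Pool.Agent.Helper69.RK Pool.Agent.Helper31.EC Pool.Agent.Helper31.EC.Sp
open Pool.Agent.Helper40.EL Pool.Agent.Helper89.LX Pool.Agent.Helper3.LF Pool.Agent.Helper84.MT
open Pool.Agent.Helper36.AM Pool.Agent.Helper49.MD Pool.Agent.Helper26.OUT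

noncomputable section

variable {S T : Sp} {M : ℕ} {E : ℕ → ℕ} {ι : Type} [Fintype ι] {w : Fin M → ℝ}

/-! ### labels and informations -/

/-- labels without leak at the point, in terms of the digits -/
theorem leak_dg {s : MSys S M E ι} {c : ℝ} {l : Lab S} (hl : s.DMc c l) :
    Nul S (fun k => (l k).leak (rp (s.Q.dg 1) k)) := by
  have h1 : Nul S (fun k => (l k).leak (pcd s.Q k)) := hl none
  have h2 : PLe (pcd s.Q) (rp (s.Q.dg 1)) := (pcd_rp s.Q).2
  exact (h1.add h2).of_le (Eventually.of_forall fun _ => FLab.leak_nonneg _ _)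
    (Eventually.of_forall fun k => (l k).leak_le_leak (rp (s.Q.dg 1) k) (pcd s.Q k))

theorem H_upL_eq (l : Lab S) (e : ℝ) (he : 0 < e) (x : S.L) : H (l.upL e he x) = H (up1 l x) / e := by
  rw [l.H_upL, l.H_upL, div_one]

/-- independence of the point passes to labels without leak at the point -/
theorem I_upL_zero {l : Lab S} (e : ℝ) (he : 0 < e) {x Q : S.L} (hl : Nul S (fun k => (l k).leak (rp Q k)))
    (h0 : I x Q ⊥ = 0) : I (l.upL e he x) (l.upL e he Q) ⊥ = 0 := by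
  apply le_antisymm _ (I_nonneg _ _ _)
  have h1 : I (l.upL e he x) (l.upL e he Q) ⊥ = H (l.upL e he x) - h (l.upL e he x) (l.upL e he Q) := by
    rw [I_eq, sup_bot_eq, h_bot]
  have h2 : I x Q ⊥ = H x - h x Q := by rw [I_eq, sup_bot_eq, h_bot]
  rw [h1, H_upL_eq, Lab.h_upL_of_leak e he hl (le_refl Q), ← sub_div]
  apply div_nonpos_of_nonpos_of_nonneg _ he.le
  have h3 := H_up1_le l x
  linarith

/-- a label which knows `Q` decreases the entropy of `x` by the information on `Q` -/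
theorem I_le_of_up {l : Lab S} {x Q : S.L} (hQ : up1 l Q = ⊥) : I x Q ⊥ ≤ H x - H (up1 l x) := by
  have h2 : I x Q ⊥ = H x - h x Q := by rw [I_eq, sup_bot_eq, h_bot]
  have h3 := h_up1_le l x Q
  rw [hQ, h_bot] at h3
  linarith

/-! ### zooms -/

theorem R1_zoom {s : MSys S M E ι} (hs : WDs w s) (hw : ∀ j, 1 ≤ w j) {W : ℝ} (hW : ∀ j, w j ≤ W) {l : Lab S} {c e : ℝ}
    {he : 0 < e} (hc : 0 < c) (hce : ∀ j, w j * c + e ≤ 1) (f : Frm s.Q l (fun j => w j * c)) (hl : s.DMc c l)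
    {E' : ℕ → ℕ} {t : MSys (l.ovr e he) M E' ι} (ht : WDs w t) (hg : Gz s l c e he f.X t)
    (hL : ∀ i, Lfr (s.lf i) f c e he (t.lf i)) (he1 : e ≤ 1) (h1 : R1 w s) : R1 w t := by
  rw [R1_iff hs] at h1
  rw [R1_iff ht, tp_zoom hs (fun j => zero_lt_one.trans_le (hw j)) hc f ht hL, mul_one]
  have hQ : t.Q.dg 1 ≤ l.upL e he (s.Q.dg 1) :=
    gz_Q f (Frm.deg hc hw hW f) (fun j => mul_nonneg (zero_le_one.trans (hw j)) hc.le) hce hg
  have h0 : I ((tpV hs).dg e) (s.Q.dg 1) ⊥ = 0 := by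
    apply le_antisymm _ (I_nonneg _ _ _)
    rw [← h1]
    exact Pool.Agent.Helper31.EC.I_mono_left (((tpV hs).dg_mono he1).trans le_sup_left)
  have h2 := I_upL_zero e he (leak_dg hl) h0
  apply le_antisymm _ (I_nonneg _ _ _)
  rw [← h2]
  exact Pool.Agent.Helper31.EC.I_mono_right (hQ.trans le_sup_left)

/-! ### classes -/

variable {N : ℕ} {Cl : MCl (N + 1)} {g r : ℕ} {ρ : ℝ}

/-- ZOOMS with the relation of the leaves: the charts of the zoom are the charts of the system in the coordinates of the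
frame -/
def ZL (w : Fin (N + 1) → ℝ) (TT : ∀ S : Sp, MSys S (N + 1) (lin g) (Fin r) → Prop) : Prop :=
  ∀ (S : Sp) (s : MSys S (N + 1) (lin g) (Fin r)), TT S s → ∀ c : ℝ, 0 < c → w (Fin.last N) * c < 1 →
    ∀ (l : Lab S) (f : Frm s.Q l (fun j => w j * c)), s.IsKap c l → ∀ (e : ℝ) (he : 0 < e),
      w (Fin.last N) * c + e ≤ 1 → ∃ t : MSys (l.ovr e he) (N + 1) (lin g) (Fin r),
        Gz s l c e he f.X t ∧ (∀ i, Lfr (s.lf i) f c e he (t.lf i)) ∧ TT _ t

section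

variable {w : Fin (N + 1) → ℝ} {TT : ∀ S : Sp, MSys S (N + 1) (lin g) (Fin r) → Prop}

theorem hom_w1 (hT : Hom N Cl g r w ρ TT) (j : Fin (N + 1)) : 1 ≤ w j := by
  rw [← hT.one]
  exact hT.mono (Fin.zero_le j)

theorem hom_wl (hT : Hom N Cl g r w ρ TT) (j : Fin (N + 1)) : w j ≤ w (Fin.last N) := hT.mono (Fin.le_last j)

/-- THE LOSS of one step -/
theorem gap (hT : Hom N Cl g r w ρ TT) (hz : ZL w TT) {θ : ℝ} (hθ : ∀ (S : Sp) (s : MSys S (N + 1) (lin g) (Fin r))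
    (h : TT S s), θ ≤ I ((tpV (hT.wd S s h)).dg 1) (s.Q.dg 1) ⊥) {S : Sp} {s : MSys S (N + 1) (lin g) (Fin r)}
    (hs : TT S s) {c e b : ℝ} (hc : 0 < c) (he : 0 < e) (hce : w (Fin.last N) * c + e ≤ 1) (hb : 0 < b)
    (hwb : w (Fin.last N) * b < 1) {l l2 : Lab S} (hl : s.IsKap c l) (hl2 : s.IsKap (c + e * b) l2) :
    e * b * θ ≤ H (up1 l ((tpV (hT.wd S s hs)).dg (e * b))) - H (up1 l2 ((tpV (hT.wd S s hs)).dg (e * b))) := by
  have h1w := hom_w1 hT
  have hwl := hom_wl hT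
  have hwc : w (Fin.last N) * c < 1 := by linarith
  have hbl : b ≤ w (Fin.last N) * b := le_mul_of_one_le_left hb.le (h1w _)
  have hb1 : b ≤ 1 := by linarith
  have hcl : c ≤ w (Fin.last N) * c := le_mul_of_one_le_left hc.le (h1w _)
  obtain ⟨l1, f, hk1⟩ := hT.box S s hs c hc hwc
  obtain ⟨t, hg, hL, ht⟩ := hz S s hs c hc hwc l1 f hk1 e he hce
  obtain ⟨l', f', hk'⟩ := hT.box _ t ht b hb hwb
  set x := tpV (hT.wd S s hs) with hx
  set y := tpV (hT.wd _ t ht) with hy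
  have hce' : ∀ j, w j * c + e ≤ 1 := fun j => by
    have := mul_le_mul_of_nonneg_right (hwl j) hc.le
    linarith
  have e1 : y.dg b = l1.upL e he (x.dg (e * b)) :=
    tp_zoom (hT.wd S s hs) (fun j => zero_lt_one.trans_le (h1w j)) hc f (hT.wd _ t ht) hL b
  -- the truncation of `t`
  have h2 : θ * b ≤ I (y.dg b) (t.Q.dg b) ⊥ := by
    have h3 := hθ _ _ (hT.trn _ t ht b hb hb1)
    rw [I_trn_tp (hT.wd _ t ht) hb hb1] at h3
    rwa [le_div_iff₀ hb] at h3
  have h3 : up1 l' (t.Q.dg b) = ⊥ :=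
    frm_dg f' (Frm.deg hb h1w hwl f') (fun j => mul_nonneg (zero_le_one.trans (h1w j)) hb.le)
      (fun j => le_mul_of_one_le_left hb.le (h1w j)) hb1
  have h4 := I_le_of_up (x := y.dg b) h3
  -- to the system
  have h5 : H (up1 l (x.dg (e * b))) = e * H (y.dg b) := by
    rw [e1, hl.H_eq hk1, H_upL_eq l1 e he (x.dg (e * b)), mul_div_cancel₀ _ he.ne']
  have h6 : s.DMc (c + e * b) (l1.comp e he l') :=
    gz_comp f (Frm.deg hc h1w hwl f) (fun j => mul_nonneg (zero_le_one.trans (h1w j)) hc.le) hce' hg hk1.1 hb.le hb1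
      hk'.1
  have h7 := hl2.H_le h6 (x.dg (e * b))
  rw [l1.H_comp e he l' (x.dg (e * b)), ← e1] at h7
  rw [h5]
  nlinarith

/-- EXISTENCE of members with (R1) -/
theorem ex_R1 (hT : Hom N Cl g r w ρ TT) (hz : ZL w TT) : ∃ (S : Sp) (s : MSys S (N + 1) (lin g) (Fin r)),
    TT S s ∧ R1 w s := by
  by_contra hn
  -- uniformity
  have hu : ∃ θ : ℝ, 0 < θ ∧ ∀ (S : Sp) (s : MSys S (N + 1) (lin g) (Fin r)) (h : TT S s),
      θ ≤ I ((tpV (hT.wd S s h)).dg 1) (s.Q.dg 1) ⊥ := by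
    by_contra hu
    have h1 : ∀ j : ℕ, ∃ (S : Sp) (s : MSys S (N + 1) (lin g) (Fin r)), TT S s ∧
        (R1A w (Fin r)).pd (1 / ((j : ℝ) + 1)) S (ob s) := by
      intro j
      by_contra hj
      refine hu ⟨1 / ((j : ℝ) + 1), by positivity, fun S s h => ?_⟩
      by_contra h2
      exact hj ⟨S, s, h, R1_lt (hT.wd S s h) (not_le.mp h2)⟩
    choose S s hs hR using h1
    obtain ⟨E₁, hE₁, h2⟩ := hT.dg S (fun j => ob (s j)) fun j => lft_ob (hs j)
    obtain ⟨E₂, hE₂, h3⟩ := (R1A w (Fin r)).diagTo (ε := fun j => 1 / ((j : ℝ) + 1)) (ε' := 0)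
      tendsto_one_div_add_atTop_nhds_zero_nat S (fun j => ob (s j)) hR
    obtain ⟨J, hJ⟩ := exists_slo S (fun i j k => E₁ i j k ∧ E₂ i j k) fun i j => (hE₁ i j).and (hE₂ i j)
    obtain ⟨t, ht, hTt⟩ := h2 J hJ.left
    have h4 := h3 J hJ.right
    exact hn ⟨_, t, hTt, (R1A w (Fin r)).inv 0 _ _ _ (ht.mono fun k hk => hk.symm) h4⟩
  obtain ⟨θ, hθ0, hθ⟩ := hu
  obtain ⟨S, s, hs⟩ := hT.ne
  have h1w := hom_w1 hT
  set W := w (Fin.last N) with hW
  have hW1 : 1 ≤ W := h1w _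
  have hW0 : 0 < W := by linarith
  set x := tpV (hT.wd S s hs) with hx
  obtain ⟨n, hn'⟩ := exists_nat_gt ((Fintype.card (Tix (fun i => (s.lf i).e) (N + 1) (wb w)) : ℝ) / θ)
  obtain ⟨e, he, hen⟩ : ∃ e : ℝ, 0 < e ∧ ((n : ℝ) + 3) * e ≤ 2 := by
    refine ⟨2 / ((n : ℝ) + 3), by positivity, le_of_eq ?_⟩
    field_simp
  obtain ⟨b, hb, hWb⟩ : ∃ b : ℝ, 0 < b ∧ W * b = 1 / 2 := by
    refine ⟨1 / (2 * W), by positivity, ?_⟩
    field_simp
  have hc : ∀ k : ℕ, 0 < ((k : ℝ) + 1) * (e * b) := fun k => by positivity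
  have step : ∀ k : ℕ, k < n → e * b * θ ≤ H (up1 (s.kap (((k : ℝ) + 1) * (e * b))) (x.dg (e * b))) -
      H (up1 (s.kap ((((k + 1 : ℕ) : ℝ) + 1) * (e * b))) (x.dg (e * b))) := by
    intro k hk
    have hk' : (k : ℝ) + 1 ≤ n := by exact_mod_cast hk
    have hce : W * (((k : ℝ) + 1) * (e * b)) + e ≤ 1 := by
      have h2 : W * (((k : ℝ) + 1) * (e * b)) = ((k : ℝ) + 1) * e * (W * b) := by ring
      rw [h2, hWb]
      nlinarith
    refine gap hT hz hθ hs (hc k) he hce hb (by rw [← hW, hWb]; norm_num) (s.kap_isKap _) ?_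
    have h2 : (((k + 1 : ℕ) : ℝ) + 1) * (e * b) = ((k : ℝ) + 1) * (e * b) + e * b := by
      push_cast
      ring
    rw [h2]
    exact s.kap_isKap _
  have tel : ∀ k : ℕ, k ≤ n → (k : ℝ) * (e * b * θ) ≤ H (up1 (s.kap ((((0 : ℕ) : ℝ) + 1) * (e * b))) (x.dg (e * b))) -
      H (up1 (s.kap (((k : ℝ) + 1) * (e * b))) (x.dg (e * b))) := by
    intro k hk
    induction k with
    | zero =>
      rw [Nat.cast_zero]
      simp
    | succ k ih =>
      have h2 := ih (by omega)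
      have h3 := step k (by omega)
      push_cast at h2 h3 ⊢
      linarith
  have h2 := tel n le_rfl
  have h3 := H_up1_le (s.kap ((((0 : ℕ) : ℝ) + 1) * (e * b))) (x.dg (e * b))
  have h4 := H_nonneg (up1 (s.kap (((n : ℝ) + 1) * (e * b))) (x.dg (e * b)))
  have h5 := x.H_dg_le (mul_pos he hb).le
  have h6 : (n : ℝ) * (e * b * θ) ≤ (Fintype.card (Tix (fun i => (s.lf i).e) (N + 1) (wb w)) : ℝ) * (e * b) := by
    linarith
  rw [div_lt_iff₀ hθ0] at hn'
  have h7 : (n : ℝ) * (e * b * θ) = (n * θ) * (e * b) := by ring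
  rw [h7] at h6
  have h8 := le_of_mul_le_mul_right h6 (mul_pos he hb)
  linarith

end

end

end Pool.Agent.Helper90.HR1
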