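import Pool.Agent.Helper90.HR1.Ex

/-! ROW R1. Every homogeneous class `TT` has a homogeneous subclass all whose members have (R1): the rounded top forms of all types (the coefficients of the degree `w j`
in the coordinate `j`) are independent of the point. -/

set_option autoImplicit false

namespace Pool.Agent.Helper90.HR1

open Finset Filter Topology MvPolynomial Pool.Agent.Helper69.RK Pool.Agent.Helper31.EC Pool.Agent.Helper31.EC.Sp
open Pool.Agent.Helper40.EL Pool.Agent.Helper89.LX Pool.Agent.Helper3.LF Pool.Agent.Helper84.MT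
open Pool.Agent.Helper36.AM Pool.Agent.Helper49.MD Pool.Agent.Helper26.OUT

noncomputable section

variable {N : ℕ} {Cl : MCl (N + 1)} {g r : ℕ} {ρ : ℝ} {w : Fin (N + 1) → ℝ}
  {TT : ∀ S : Sp, MSys S (N + 1) (lin g) (Fin r) → Prop}

/-- the members with (R1) -/
def T1 (w : Fin (N + 1) → ℝ) (TT : ∀ S : Sp, MSys S (N + 1) (lin g) (Fin r) → Prop) (S : Sp)
    (s : MSys S (N + 1) (lin g) (Fin r)) : Prop := TT S s ∧ R1 w s

/-- literal zooms of the members with (R1) -/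
theorem zl_T1 (hT : Hom N Cl g r w ρ TT) (hz : ZL w TT) : ZL w (T1 w TT) := by
  intro S s hs c hc hwc l f hl e he hce
  obtain ⟨t, hg, hL, ht⟩ := hz S s hs.1 c hc hwc l f hl e he hce
  have h1w := hom_w1 hT
  have hwl := hom_wl hT
  have h2 : 0 < w (Fin.last N) * c := mul_pos (zero_lt_one.trans_le (h1w _)) hc
  exact ⟨t, hg, hL, ht, R1_zoom (hT.wd S s hs.1) h1w hwl hc (fun j => by
    have := mul_le_mul_of_nonneg_right (hwl j) hc.le
    linarith) f hl.1 (hT.wd _ t ht) hg hL (by linarith) hs.2⟩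

/-- the members with (R1) are a homogeneous class -/
theorem hom_T1 (hT : Hom N Cl g r w ρ TT) (hz : ZL w TT) : Hom N Cl g r w ρ (T1 w TT) where
  cl := fun S s hs => hT.cl S s hs.1
  ne := by
    obtain ⟨S, s, hs, h1⟩ := ex_R1 hT hz
    exact ⟨S, s, hs, h1⟩
  im := fun S s hs T p A hA => ⟨hT.im S s hs.1 T p A hA,
    R1_im (hT.wd S s hs.1) hs.2 p A hA (hT.wd _ _ (hT.im S s hs.1 T p A hA))⟩
  dg := by
    refine (DiagCl.and hT.dg ((R1A w (Fin r)).diagCl 0)).mono ?_ ?_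
    · rintro _ S x ⟨s, hs, h1, h2⟩
      exact ⟨⟨s, hs, h1⟩, (R1A w (Fin r)).inv 0 S (ob s) x hs h2⟩
    · rintro S x ⟨⟨s, hs, h1⟩, h2⟩
      exact ⟨s, hs, h1, (R1A w (Fin r)).inv 0 S x (ob s) (hs.mono fun k hk => hk.symm) h2⟩
  con := fun S s hs => hT.con S s hs.1
  hull := fun S s hs => hT.hull S s hs.1
  mono := hT.mono
  one := hT.one
  rho := hT.rho
  rho1 := hT.rho1
  trn := fun S s hs e he h1 => ⟨hT.trn S s hs.1 e he h1,
    R1_trn (hT.wd S s hs.1) hs.2 he h1 (hT.wd _ _ (hT.trn S s hs.1 e he h1))⟩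
  wd := fun S s hs => hT.wd S s hs.1
  box := fun S s hs => hT.box S s hs.1
  zoom := fun S s hs c hc hwc l f hl e he hce => by
    obtain ⟨t, hg, hL, ht⟩ := zl_T1 hT hz S s hs c hc hwc l f hl e he hce
    exact ⟨t, ⟨hg, hL⟩, ht⟩
  num := fun S s hs => hT.num S s hs.1

/-- the zooms of a homogeneous class -/
theorem zl_hom (hT : Hom N Cl g r w ρ TT) : ZL w TT := fun S s hs c hc hwc l f hl e he hce => by
  obtain ⟨t, hg, ht⟩ := hT.zoom S s hs c hc hwc l f hl e he hce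
  exact ⟨t, hg.toGz, hg.lfr, ht⟩

/-- ROW R1 -/
theorem hr1 (hT : Hom N Cl g r w ρ TT) :
    ∃ TT1 : ∀ S : Sp, MSys S (N + 1) (lin g) (Fin r) → Prop, Hom N Cl g r w ρ TT1 ∧
      ∀ S s, TT1 S s → TT S s ∧ R1 w s := ⟨T1 w TT, hom_T1 hT (zl_hom hT), fun _ _ h => h⟩

end

end Pool.Agent.Helper90.HR1
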