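import Pool.Agent.Helper26.OUT.Gu

/-! Top forms of polynomial charts: coefficients of the degree `w j` in the coordinate `j`; they do not change in zooms. -/

set_option autoImplicit false

namespace Pool.Agent.Helper90.HR1

open Finset MvPolynomial Pool.Agent.Helper84.MT Pool.Agent.Helper26.OUT Pool.Agent.Helper3.LF

noncomputable section

variable {e M : ℕ}

/-! ### leading terms -/

/-- polynomials of degree at most `n` with the same coefficients of degree `n` -/
structure GP (n : ℕ) (p q : MvPolynomial (Fin e) ℝ) : Prop where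
  l : p.totalDegree ≤ n
  r : q.totalDegree ≤ n
  eq : ∀ a : Fin e →₀ ℕ, n ≤ ∑ i, a i → coeff a p = coeff a q

theorem coeff_zero_of {n : ℕ} {p : MvPolynomial (Fin e) ℝ} (h : p.totalDegree ≤ n) {a : Fin e →₀ ℕ}
    (ha : n < ∑ i, a i) : coeff a p = 0 := by
  apply coeff_eq_zero_of_totalDegree_lt
  refine lt_of_le_of_lt h (lt_of_lt_of_le ha (le_of_eq ?_))
  symm
  apply Finset.sum_subset (Finset.subset_univ _)
  intro i _ hi
  exact Finsupp.notMem_support_iff.mp hi

theorem GP.mul {n m : ℕ} {p q p' q' : MvPolynomial (Fin e) ℝ} (h : GP n p q) (h' : GP m p' q') :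
    GP (n + m) (p * p') (q * q') := by
  refine ⟨(totalDegree_mul _ _).trans (add_le_add h.l h'.l), (totalDegree_mul _ _).trans (add_le_add h.r h'.r), ?_⟩
  intro a ha
  rw [coeff_mul, coeff_mul]
  refine Finset.sum_congr rfl fun x hx => ?_
  have h1 : x.1 + x.2 = a := Finset.HasAntidiagonal.mem_antidiagonal.mp hx
  have h2 : ∑ i, a i = ∑ i, x.1 i + ∑ i, x.2 i := by
    rw [← h1, ← Finset.sum_add_distrib]
    exact Finset.sum_congr rfl fun i _ => Finsupp.add_apply _ _ _
  rcases Nat.lt_or_ge n (∑ i, x.1 i) with h3 | h3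
  · rw [coeff_zero_of h.l h3, coeff_zero_of h.r h3, zero_mul, zero_mul]
  rcases Nat.lt_or_ge m (∑ i, x.2 i) with h4 | h4
  · rw [coeff_zero_of h'.l h4, coeff_zero_of h'.r h4, mul_zero, mul_zero]
  rw [h.eq _ (by omega), h'.eq _ (by omega)]

theorem GP.one : GP (e := e) 0 1 1 := by
  refine ⟨?_, ?_, fun _ _ => rfl⟩ <;> rw [totalDegree_one]

theorem GP.pow {n : ℕ} {p q : MvPolynomial (Fin e) ℝ} (h : GP n p q) (k : ℕ) : GP (k * n) (p ^ k) (q ^ k) := by
  induction k with
  | zero =>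
    rw [pow_zero, pow_zero, Nat.zero_mul]
    exact GP.one
  | succ k ih =>
    rw [pow_succ, pow_succ, Nat.succ_mul]
    exact ih.mul h

theorem GP.prod {ι : Type} (t : Finset ι) {n : ι → ℕ} {p q : ι → MvPolynomial (Fin e) ℝ} (h : ∀ i ∈ t, GP (n i) (p i) (q i)) :
    GP (∑ i ∈ t, n i) (∏ i ∈ t, p i) (∏ i ∈ t, q i) := by
  classical
  induction t using Finset.induction_on with
  | empty => exact GP.one
  | insert a t ha ih =>
    rw [Finset.sum_insert ha, Finset.prod_insert ha, Finset.prod_insert ha]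
    exact (h a (Finset.mem_insert_self a t)).mul (ih fun i hi => h i (Finset.mem_insert_of_mem hi))

theorem GP.aff (o δ : ℝ) (i : Fin e) : GP 1 (C o + C δ * X i) (C δ * X i) := by
  have h1 : (C δ * X i : MvPolynomial (Fin e) ℝ).totalDegree ≤ 1 := by
    refine (totalDegree_mul _ _).trans ?_
    rw [totalDegree_C, zero_add, totalDegree_X]
  refine ⟨(totalDegree_add _ _).trans (max_le ?_ h1), h1, ?_⟩
  · rw [totalDegree_C]
    exact Nat.zero_le _
  · intro a ha
    rw [coeff_add]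
    have h2 : coeff a (C o : MvPolynomial (Fin e) ℝ) = 0 := by
      apply coeff_zero_of (n := 0) (le_of_eq (totalDegree_C o))
      omega
    rw [h2, zero_add]

/-- LEADING COEFFICIENTS after an affine change of the parameter -/
theorem coeff_aff (G : MvPolynomial (Fin e) ℝ) (o : Fin e → ℝ) (δ : ℝ) {a : Fin e →₀ ℕ} (hG : G.totalDegree ≤ ∑ i, a i) :
    coeff a (bind₁ (fun i => C (o i) + C δ * X i) G) = δ ^ (∑ i, a i) * coeff a G := by
  classical
  have h1 : bind₁ (fun i => C (o i) + C δ * X i) G = ∑ b ∈ G.support, C (G.coeff b) *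
      ∏ i ∈ b.support, (C (o i) + C δ * X i : MvPolynomial (Fin e) ℝ) ^ b i := by
    show aeval _ G = _
    rw [aeval_def, eval₂_eq]
    rfl
  have hsum : ∀ b : Fin e →₀ ℕ, ∑ i ∈ b.support, b i = ∑ i, b i := by
    intro b
    apply Finset.sum_subset (Finset.subset_univ _)
    intro i _ hi
    exact Finsupp.notMem_support_iff.mp hi
  rw [h1, coeff_sum]
  have h2 : ∀ b ∈ G.support, coeff a (C (G.coeff b) *
      ∏ i ∈ b.support, (C (o i) + C δ * X i : MvPolynomial (Fin e) ℝ) ^ b i) =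
      if b = a then δ ^ (∑ i, a i) * coeff a G else 0 := by
    intro b hb
    have hb1 : ∑ i, b i ≤ ∑ i, a i := by
      have h3 := (le_totalDegree hb).trans hG
      rw [Finsupp.sum_fintype _ _ (fun _ => rfl)] at h3
      exact h3
    have h4 := GP.prod b.support (n := fun i => b i * 1) (fun i _ => (GP.aff (o i) δ i).pow (b i))
    have h5 : ∑ i ∈ b.support, b i * 1 = ∑ i, b i := by
      rw [← hsum b]
      exact Finset.sum_congr rfl fun i _ => mul_one _
    rw [h5] at h4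
    rw [coeff_C_mul, h4.eq a hb1]
    have h6 : ∏ i ∈ b.support, (C δ * X i : MvPolynomial (Fin e) ℝ) ^ b i = C (δ ^ (∑ i, b i)) * monomial b 1 := by
      have h7 : ∏ i ∈ b.support, (C δ * X i : MvPolynomial (Fin e) ℝ) ^ b i =
          (∏ i ∈ b.support, (C δ : MvPolynomial (Fin e) ℝ) ^ b i) * ∏ i ∈ b.support, (X i : MvPolynomial (Fin e) ℝ) ^ b i := by
        rw [← Finset.prod_mul_distrib]
        exact Finset.prod_congr rfl fun i _ => mul_pow _ _ _
      rw [h7, Finset.prod_pow_eq_pow_sum, hsum, map_pow, monomial_eq, map_one, one_mul]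
      rfl
    rw [h6, coeff_C_mul, coeff_monomial]
    split_ifs with h7
    · rw [h7]
      ring
    · ring
  rw [Finset.sum_congr rfl h2, Finset.sum_ite_eq']
  split_ifs with h3
  · rfl
  · rw [notMem_support_iff.mp h3, mul_zero]

/-! ### polynomials from their values -/

open Classical in
/-- the polynomial of a function -/
def plf (f : (Fin e → ℝ) → ℝ) : MvPolynomial (Fin e) ℝ := if h : ∃ G : MvPolynomial (Fin e) ℝ, ∀ y, f y = eval y G then h.choose else 0

theorem plf_eq {f : (Fin e → ℝ) → ℝ} {G : MvPolynomial (Fin e) ℝ} (h : ∀ y, f y = eval y G) : plf f = G := by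
  unfold plf
  have h1 : ∃ G : MvPolynomial (Fin e) ℝ, ∀ y, f y = eval y G := ⟨G, h⟩
  rw [dif_pos h1]
  apply MvPolynomial.funext
  intro y
  rw [← h1.choose_spec y, h y]

/-- exponents -/
def exf {W : ℕ} (a : Fin e → Fin (W + 1)) : Fin e →₀ ℕ := Finsupp.equivFunOnFinite.symm fun i => (a i : ℕ)

theorem exf_apply {W : ℕ} (a : Fin e → Fin (W + 1)) (i : Fin e) : exf a i = (a i : ℕ) := rfl

open Classical in
/-- coefficients of the top forms -/
def tpc (w : Fin M → ℝ) (W : ℕ) (F : (Fin e → ℝ) → Fin M → ℝ) (p : Fin M × (Fin e → Fin (W + 1))) : ℝ :=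
  if ∑ i, ((p.2 i : ℕ) : ℝ) = w p.1 then (plf fun y => F y p.1).coeff (exf p.2) else 0

/-- TOP FORMS DO NOT CHANGE in zooms -/
theorem tpc_zoom {w : Fin M → ℝ} (hw : ∀ j, 0 < w j) (W : ℕ) {Fs Ft : (Fin e → ℝ) → Fin M → ℝ}
    {Gs Gt : Fin M → MvPolynomial (Fin e) ℝ} (es : ∀ y j, Fs y j = eval y (Gs j)) (et : ∀ y j, Ft y j = eval y (Gt j))
    (hs : ∀ j, ((Gs j).totalDegree : ℝ) ≤ w j) (ht : ∀ j, ((Gt j).totalDegree : ℝ) ≤ w j)
    {P : Fin M → MvPolynomial (Fin M) ℝ} (red : ∀ j, ∀ b ∈ (P j).support, b ≠ 0 → ∑ i, (b i : ℝ) * w i < w j)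
    (o : Fin e → ℝ) {δ : ℝ} (hδ : 0 < δ) (d : Fin M → ℝ) (hd : ∀ j, d j = δ ^ (w j))
    (h : ∀ y j, Fs (fun m => o m + δ * y m) j = eval (fun a => d a * Ft y a) (P j) + d j * Ft y j)
    (p : Fin M × (Fin e → Fin (W + 1))) : tpc w W Ft p = tpc w W Fs p := by
  classical
  obtain ⟨j, a⟩ := p
  unfold tpc
  simp only
  by_cases hj : ∑ i, ((a i : ℕ) : ℝ) = w j
  swap
  · rw [if_neg hj, if_neg hj]
  rw [if_pos hj, if_pos hj, plf_eq (fun y => es y j), plf_eq (fun y => et y j)]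
  have hj' : ((∑ i, exf a i : ℕ) : ℝ) = w j := by
    rw [← hj]
    push_cast
    exact Finset.sum_congr rfl fun i _ => by rw [exf_apply]
  have hpos : 0 < ∑ i, exf a i := by
    have h1 := hw j
    rw [← hj'] at h1
    exact_mod_cast h1
  have hsj : (Gs j).totalDegree ≤ ∑ i, exf a i := by
    have h1 := hs j
    rw [← hj'] at h1
    exact_mod_cast h1
  -- the polynomial identity
  have key : bind₁ (fun i => C (o i) + C δ * X i) (Gs j) = bind₁ (fun a => C (d a) * Gt a) (P j) + C (d j) * Gt j := by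
    apply MvPolynomial.funext
    intro y
    rw [eval_aff, ← es, h y j, map_add, map_mul, eval_C, ← et, Pool.Agent.Helper81.MI.eval_bind]
    have h2 : (fun a => d a * Ft y a) = fun i => eval y (C (d i) * Gt i) := by
      funext b
      rw [map_mul, eval_C, ← et]
    rw [h2]
  -- the first term has a smaller degree
  obtain ⟨B, hB0, hBj, hB⟩ : ∃ B : ℝ, 0 ≤ B ∧ B < w j ∧ ∀ b ∈ (P j).support, b ≠ 0 → ∑ i, (b i : ℝ) * w i ≤ B := by
    by_cases hne : ((P j).support.filter fun b => b ≠ 0).Nonempty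
    · obtain ⟨b, hb, hmax⟩ := Finset.exists_max_image _ (fun b : Fin M →₀ ℕ => ∑ i, (b i : ℝ) * w i) hne
      rw [Finset.mem_filter] at hb
      refine ⟨∑ i, (b i : ℝ) * w i, Finset.sum_nonneg fun i _ => mul_nonneg (Nat.cast_nonneg _) (hw i).le,
        red j b hb.1 hb.2, fun b' h1 h2 => hmax b' (Finset.mem_filter.mpr ⟨h1, h2⟩)⟩
    · refine ⟨0, le_rfl, hw j, fun b h1 h2 => ?_⟩
      exact absurd ⟨b, Finset.mem_filter.mpr ⟨h1, h2⟩⟩ hne
  have hdeg : ((bind₁ (fun a => C (d a) * Gt a) (P j)).totalDegree : ℝ) ≤ B := by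
    refine tdeg_bind (P j) _ w hB0 hB (fun i _ => ?_)
    refine le_trans ?_ (ht i)
    have h1 : (C (d i) * Gt i : MvPolynomial (Fin e) ℝ).totalDegree ≤ (Gt i).totalDegree := by
      refine (totalDegree_mul _ _).trans ?_
      rw [totalDegree_C, zero_add]
    exact_mod_cast h1
  have hz : coeff (exf a) (bind₁ (fun a => C (d a) * Gt a) (P j)) = 0 := by
    apply coeff_zero_of le_rfl
    have h1 := lt_of_le_of_lt hdeg hBj
    rw [← hj'] at h1
    exact_mod_cast h1
  have h1 := congrArg (coeff (exf a)) key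
  rw [coeff_aff _ _ _ hsj, coeff_add, hz, zero_add, coeff_C_mul, hd, ← hj', Real.rpow_natCast] at h1
  exact (mul_left_cancel₀ (pow_pos hδ _).ne' h1).symm

/-- bound of the coefficients of the top forms -/
theorem tpc_bd (e M W : ℕ) : ∃ C' : ℝ, 0 ≤ C' ∧ ∀ (w : Fin M → ℝ) (F : (Fin e → ℝ) → Fin M → ℝ)
    (G : Fin M → MvPolynomial (Fin e) ℝ), (∀ y j, F y j = eval y (G j)) → (∀ j, ((G j).totalDegree : ℝ) ≤ w j) →
    (∀ j, w j ≤ W) → ∀ (Y : Fin e → ℝ) (K : ℝ), 0 ≤ K → (∀ y : Fin e → ℝ, (∀ i, |y i - Y i| ≤ 1) → ∀ j, |F y j| ≤ K) →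
    ∀ p : Fin M × (Fin e → Fin (W + 1)), |tpc w W F p| ≤ C' * K := by
  classical
  obtain ⟨C', h0, hC⟩ := coeff_nodes e W
  refine ⟨C', h0, fun w F G hF hG hW Y K hK hY p => ?_⟩
  obtain ⟨j, a⟩ := p
  unfold tpc
  simp only
  by_cases hj : ∑ i, ((a i : ℕ) : ℝ) = w j
  swap
  · rw [if_neg hj, abs_zero]
    positivity
  rw [if_pos hj, plf_eq (fun y => hF y j)]
  have hj' : ((∑ i, exf a i : ℕ) : ℝ) = w j := by
    rw [← hj]
    push_cast
    exact Finset.sum_congr rfl fun i _ => by rw [exf_apply]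
  have hsj : (G j).totalDegree ≤ ∑ i, exf a i := by
    have h1 := hG j
    rw [← hj'] at h1
    exact_mod_cast h1
  have hWj : (G j).totalDegree ≤ W := by
    have h1 := (hG j).trans (hW j)
    exact_mod_cast h1
  have h1 := coeff_aff (G j) Y 1 (a := exf a) hsj
  rw [one_pow, one_mul] at h1
  rw [← h1]
  refine hC _ ((tdeg_aff _ _ _).trans hWj) K hK (fun b => ?_) _
  rw [eval_aff, ← hF]
  apply hY
  intro i
  rw [add_sub_cancel_left, one_mul, abs_of_nonneg (nod_nonneg W _)]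
  exact nod_le W _ (Nat.le_of_lt_succ (b i).2)

end

end Pool.Agent.Helper90.HR1
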